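import Pool.Agent.Lib.MP_1c66c9_an.StmtDefs
import Pool.Agent.Lib.MP_1c66c9_an.Main

/-!
# MP_1c66c9_an: the global dimension theorem for C*-algebras

Every infinite-dimensional C*-algebra `A` (unital or not) has `dg A > 1` and `db A > 1`.

Definitions: `PTDefs.lean` (projective tensor product), `StmtDefs.lean` (Banach modules and
bimodules, projectivity, admissible resolutions, `dh`, `dg`, `db`). The proof works with continuous
linear maps (`PT.lean`, `Defs.lean`); the translation is in `Bridge.lean`.

Proof (files in `Pool/Agent/Lib/MP_1c66c9_an`). A resolution of length `≤ 1` of `X` gives a bounded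
bilinear map `b : A₊ × X → A₊ ⊗ (A₊ ⊗ X)` with three identities (`Res1`; `ResB1`, `ResB2` for
bimodules). `OrthA`, `OrthP`, `MinProj`, `SumMin`, `FinDim`: orthogonal sequences in `A₊`. `State*`,
`SetupEx`: states concentrated on the members of the sequence and their limit. `ModX`: a module of
bounded functions on the set of finite lists of finite subsets of `A₊`. `Phi*`: functionals.
`Phil*`: a Rosenthal-Phillips type lemma; `Sel*`: gliding hump selection, which yields a
triangular matrix. `Dy*`: a dyadic functional which is of order `N log N` on the triangular matrix but
only `N sqrt(log N)` on Gram matrices of bounded vectors of a Hilbert space. `Heart*`: the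
contradiction. `Main`: assembly.
-/

namespace Pool.Agent.Results.MP_1c66c9_an.GlobalDimension

open Pool.MP_1c66c9_an

universe u

theorem result (A : Type u) [NonUnitalCStarAlgebra A] (hA : ¬ FiniteDimensional ℂ A) :
    1 < dg A ∧ 1 < db A :=
  main A hA

end Pool.Agent.Results.MP_1c66c9_an.GlobalDimension
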